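import Pool.Agent.helper59.FI4.SpecI

set_option autoImplicit false

namespace Pool.Agent.FI4I

open Pool.Agent.helper58.DC Pool.Agent.DI Pool.Agent.GR Pool.Agent.OB Pool.Agent.DR Pool.Agent.FI Pool.Agent.FI3 Pool.Agent.FI4

/-- If a function supported on `cz D` has a nonzero central character at the class sum of `y` in `L`, some `L`-conjugate of `y`
lies in `cz D`. -/
theorem DFH_conj (h3 : CLS_stmt) {G : Type} [Group G] [Finite G] (L D : Subgroup G) (θ : G → ℂ)
    (hθ : ∀ g, g ∉ cz D → θ g = 0) (y : G) (hy : cc θ (cls L y) ≠ 0) : ∃ l ∈ L, l * y * l⁻¹ ∈ cz D := by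
  by_contra hcon
  push Not at hcon
  apply hy
  unfold cc
  have h0 : ∀ x, cls L y x * θ x = 0 := by
    intro x
    rcases (h3 G L y).2.2.2.2.1 x with h | h
    · rw [h, zero_mul]
    · obtain ⟨l, hl, rfl⟩ := ((h3 G L y).2.2.2.1 x).1 h
      rw [hθ _ (hcon l hl), mul_zero]
  rw [finsum_congr h0]
  simp

/-- Row DFH: `D` is a defect group of the block of `H` induced by `θ`. -/
theorem DFH (hSBI : SBI_stmt) (hDCM : DCM_stmt) (hCLS : CLS_stmt) (hSYL : SYL_stmt) (_hTPR : FI.TPR_stmt) (_hC3 : C3_stmt) :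
    DFH_stmt := by
  intro p M hs G _ _ D x θ χ hR L hCL ψ hψ hSB
  have h1 := hSBI
  have h2 := hDCM
  have h3 := hCLS
  have h4 := hSYL
  have : Fact p.Prime := ⟨hs.pr⟩
  have hsyl := h4 p G
  have hcomm : D ≤ cz D := by
    intro d hd
    rw [Subgroup.mem_centralizer_iff]
    intro c hc
    exact hR.com c hc d hd
  have hDL : D ≤ L := hcomm.trans hCL
  have hθ0 : ∀ g, g ∉ cz D → θ g = 0 := hR.th.1
  -- conjugates of elements with nonzero central character
  have key : ∀ y ∈ L, ¬ InM M (cc ψ (cls L y)) → ∃ l ∈ L, l * y * l⁻¹ ∈ cz D := by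
    intro y hy hne
    have h := (h1 p M hs G L θ ψ hSB).2 y hy
    refine DFH_conj h3 L D θ hθ0 y ?_
    intro h0
    apply hne
    rw [← h, h0]
    exact InM.zero hs
  have hDC : ∀ y ∈ cz D, D ≤ Cz L y := by
    intro y hy d hd
    refine Subgroup.mem_inf.2 ⟨hDL hd, ?_⟩
    rw [Subgroup.mem_centralizer_iff]
    intro z hz
    rw [Set.mem_singleton_iff] at hz
    subst hz
    exact ((Subgroup.mem_centralizer_iff.1 hy) d hd).symm
  have hDp : IsPGroup p D := hR.dfa.pgrp
  -- existence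
  set f : G → ℂ := rsH L (cls ⊤ x) with hf
  have hfCF : CF L f := by
    refine ⟨fun h hh z => ?_, fun z hz => ?_⟩
    · rw [hf]
      unfold rsH
      have e : h * z * h⁻¹ ∈ L ↔ z ∈ L := by
        constructor
        · intro hz
          have := L.mul_mem (L.mul_mem (L.inv_mem hh) hz) hh
          have e2 : h⁻¹ * (h * z * h⁻¹) * h = z := by group
          rwa [e2] at this
        · intro hz
          exact L.mul_mem (L.mul_mem hh hz) (L.inv_mem hh)
      by_cases hz : z ∈ L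
      · rw [if_pos hz, if_pos (e.2 hz)]
        exact (h3 G ⊤ x).1 h (Subgroup.mem_top h) z
      · rw [if_neg hz, if_neg (fun h' => hz (e.1 h'))]
    · rw [hf]
      unfold rsH
      rw [if_neg hz]
  have hfint : ∀ z, IsIntegral ℤ (f z) := by
    intro z
    rw [hf]
    unfold rsH
    by_cases hz : z ∈ L
    · rw [if_pos hz]
      exact (h3 G ⊤ x).2.2.1 z
    · rw [if_neg hz]
      exact isIntegral_zero
  have hfat : ∀ z, IntAt M (f z) := fun z => IntAt.of_isIntegral hs (hfint z)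
  have hccθ : cc θ f = omega θ x := by
    rw [(h3 G ⊤ x).2.2.2.2.2.2.2.1 θ]
    unfold cc
    congr 1
    refine finsum_congr fun z => ?_
    rw [hf]
    unfold rsH
    by_cases hz : z ∈ L
    · rw [if_pos hz]
    · rw [if_neg hz, hθ0 z (fun h => hz (hCL h)), mul_zero, mul_zero]
  have hω : ¬ InM M (omega θ x) := by
    intro h
    obtain ⟨a, ha, e⟩ := hR.ind x
    apply hR.dfa.ne
    have e2 : omega χ x = omega θ x - (a : ℂ) := by rw [← e]; ring
    rw [e2]
    exact h.sub hs (InM.coe hs ha)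
  have hccψ : ¬ InM M (cc ψ f) := by
    intro h
    have h' := (h1 p M hs G L θ ψ hSB).1 f hfCF hfat
    rw [hccθ] at h'
    apply hω
    have e2 : omega θ x = (omega θ x - cc ψ f) + cc ψ f := by ring
    rw [e2]
    exact h'.add hs h
  have hex : ∃ y, ¬ InM M (f y) ∧ ¬ InM M (cc ψ (cls L y)) := by
    by_contra hcon
    push Not at hcon
    apply hccψ
    refine (((h2 G L M p hs).1 ψ f hfCF.1 hfat ?_).2 ?_)
    · intro z
      exact IntAt.of_isIntegral hs ((h3 G L z).2.2.2.2.2.2.2.2 L le_rfl ψ hψ)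
    · intro z
      by_cases hz : InM M (f z)
      · exact Or.inl hz
      · exact Or.inr (hcon z hz)
  obtain ⟨y, hy1, hy2⟩ := hex
  have hyL : y ∈ L := by
    by_contra hyn
    apply hy1
    rw [hfCF.2 y hyn]
    exact InM.zero hs
  have hyc : ∃ g : G, g * x * g⁻¹ = y := by
    rcases (h3 G ⊤ x).2.2.2.2.1 y with h | h
    · exfalso
      apply hy1
      rw [hf]
      unfold rsH
      rw [if_pos hyL, h]
      exact InM.zero hs
    · obtain ⟨l, _, e⟩ := ((h3 G ⊤ x).2.2.2.1 y).1 h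
      exact ⟨l, e⟩
  obtain ⟨l, hl, hx'⟩ := key y hyL hy2
  obtain ⟨g, hg⟩ := hyc
  have hxg : (l * g) * x * (l * g)⁻¹ = l * y * l⁻¹ := by
    rw [← hg]
    group
  have hx'L : l * y * l⁻¹ ∈ L := hCL hx'
  have hcls : cls L (l * y * l⁻¹) = cls L y := (h3 G L y).2.2.2.2.2.1 l hl
  have hle : D ≤ Cz L (l * y * l⁻¹) := hDC _ hx'
  have hcard1 : Nat.card D ≤ pp p (Cz L (l * y * l⁻¹)) := (hsyl.1 D _ hDp hle).1
  have hcard2 : pp p (Cz L (l * y * l⁻¹)) ≤ Nat.card D := by
    have e1 : Cz L (l * y * l⁻¹) ≤ Cz ⊤ ((l * g) * x * (l * g)⁻¹) := by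
      rw [hxg]
      exact inf_le_inf_right _ le_top
    have e2 := hsyl.2.2.2.1 _ _ e1
    have e3 := (hsyl.2.2.2.2.2.1 ⊤ x (l * g) (Subgroup.mem_top _)).2
    rw [e3] at e2
    have e4 : Cz (⊤ : Subgroup G) x = Subgroup.centralizer {x} := by
      unfold Cz
      exact top_inf_eq _
    rw [e4] at e2
    rw [hR.dfa.card]
    exact e2
  refine ⟨l * y * l⁻¹, hx', ?_⟩
  refine ⟨?_, hx'L, hle, hDp, le_antisymm hcard1 hcard2, ?_, ?_⟩
  · have := (hsyl.2.2.2.2.2.2.2.2 x (l * g)).1 hR.dfa.reg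
    rwa [hxg] at this
  · rw [hcls]
    exact hy2
  · intro z hz hne
    obtain ⟨m, hm, hmz⟩ := key z hz hne
    have e1 := (hsyl.1 D _ hDp (hDC _ hmz)).1
    have e2 := (hsyl.2.2.2.2.2.1 L z m hm).2
    rw [e2] at e1
    exact e1

end Pool.Agent.FI4I
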